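import Pool.Agent.MP_27fe6f_al.Main

/-!
Mathlib's profinite completion, and the final comparison.
-/

namespace Pool.Agent.MP_27fe6f_al

open CategoryTheory ProfiniteGrp

universe u

/-- The canonical map from a group to its profinite completion, as a homomorphism. -/
noncomputable def etaHom (Γ : Type u) [Group Γ] : Γ →* profiniteCompletion.obj (GrpCat.of Γ) where
  toFun := ProfiniteCompletion.etaFn (GrpCat.of Γ)
  map_one' := rfl
  map_mul' _ _ := rfl

theorem isProf_eta (Γ : Type u) [Group Γ] : IsProf (etaHom Γ) where
  dense := ProfiniteCompletion.denseRange (GrpCat.of Γ)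
  ext N hN hNf := by
    let N' : FiniteIndexNormalSubgroup (GrpCat.of Γ) := ⟨N, hN, hNf⟩
    refine ⟨{ toFun := fun x => x.1 N', map_one' := rfl, map_mul' := fun _ _ => rfl }, ?_, ?_⟩
    · have hcont : Continuous (fun x : (profiniteCompletion.obj (GrpCat.of Γ)) =>
          (x.1 N' : (ProfiniteCompletion.diagram (GrpCat.of Γ)).obj N')) :=
        (continuous_apply N').comp continuous_subtype_val
      intro s
      exact hcont.isOpen_preimage s trivial
    · intro g
      rfl

theorem IsProf.comp_equiv {Γ P Q : Type*} [Group Γ] [Group P] [TopologicalSpace P] [Group Q]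
    [TopologicalSpace Q] {i : Γ →* P} (hi : IsProf i) (e : P ≃ₜ* Q) :
    IsProf ((e : P →* Q).comp i) where
  dense := by
    have := e.toHomeomorph.surjective.denseRange.comp hi.dense e.continuous
    exact this
  ext N hN hNf := by
    obtain ⟨f, hf, hf'⟩ := hi.ext N hN hNf
    refine ⟨f.comp (e.symm : Q →* P), ?_, ?_⟩
    · exact hf.comp_continuous e.symm.continuous
    · intro g
      simp [hf']

/-- Finitely generated groups with isomorphic profinite completions have isomorphic proalgebraic
completions over `ℂ`. -/
theorem proalgebraicallyIsomorphic_of_profinitelyIsomorphic (Γ Λ : Type u) [Group Γ] [Group Λ]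
    [Group.FG Γ] [Group.FG Λ] (h : ProfinitelyIsomorphic Γ Λ) :
    ProalgebraicallyIsomorphic Γ Λ := by
  obtain ⟨e⟩ := h
  exact ⟨RepFun ℂ Γ, inferInstance, inferInstance, evHom Γ,
    RepFun ℂ Λ, inferInstance, inferInstance, evHom Λ,
    isProalgebraicCompletion_repFun Γ, isProalgebraicCompletion_repFun Λ,
    exists_bialgEquiv ((isProf_eta Γ).comp_equiv e) (isProf_eta Λ)⟩

end Pool.Agent.MP_27fe6f_al
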