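import Mathlib

/-!
Proalgebraic completions, profinite completions and the two notions of rigidity.

An affine group scheme over `ℂ` (a pro-affine algebraic group over `ℂ`) is given by its coordinate
ring, a commutative Hopf algebra over `ℂ`; it is an affine algebraic group when the coordinate ring
is a finitely generated `ℂ`-algebra.  A morphism `G → G'` is a homomorphism of Hopf algebras
`𝒪(G') → 𝒪(G)` (a bialgebra homomorphism between Hopf algebras automatically commutes with the
antipodes).
-/

namespace Pool.Agent.MP_27fe6f_al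

open CategoryTheory

universe u

/-- The group `G(ℂ)` of complex points of the affine group scheme `G` over `ℂ` with coordinate
Hopf algebra `H`: the `ℂ`-algebra homomorphisms `H → ℂ`, with the convolution product
`(x * y) h = ∑ x h₁ * y h₂` where `Δ h = ∑ h₁ ⊗ h₂` (Mathlib's group structure on `WithConv`). -/
abbrev Points (H : Type*) [CommRing H] [HopfAlgebra ℂ H] : Type _ := WithConv (H →ₐ[ℂ] ℂ)

/-- `IsProalgebraicCompletion Γ A i`: the pro-affine algebraic group `𝒜` over `ℂ` with coordinate
Hopf algebra `A`, together with the homomorphism `i : Γ → 𝒜(ℂ)`, has the universal property of the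
proalgebraic completion of `Γ`: for every affine algebraic group `G` over `ℂ` (with coordinate
Hopf algebra `H`, finitely generated as an algebra) and every homomorphism `ρ : Γ → G(ℂ)` there is
a unique morphism `𝒜 → G` (that is, a unique `φ : H → A`) through which `ρ` factors. -/
def IsProalgebraicCompletion (Γ : Type u) [Group Γ] (A : Type u) [CommRing A] [HopfAlgebra ℂ A]
    (i : Γ →* Points A) : Prop :=
  ∀ (H : Type) [CommRing H] [HopfAlgebra ℂ H] [Algebra.FiniteType ℂ H] (ρ : Γ →* Points H),
    ∃! φ : H →ₐc[ℂ] A, ∀ (γ : Γ) (x : H), (ρ γ).ofConv x = (i γ).ofConv (φ x)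

/-- `𝒜(Γ) ≅ 𝒜(Λ)` as proalgebraic groups over `ℂ`. -/
def ProalgebraicallyIsomorphic (Γ Λ : Type u) [Group Γ] [Group Λ] : Prop :=
  ∃ (A : Type u) (_ : CommRing A) (_ : HopfAlgebra ℂ A) (i : Γ →* Points A)
    (B : Type u) (_ : CommRing B) (_ : HopfAlgebra ℂ B) (j : Λ →* Points B),
    IsProalgebraicCompletion Γ A i ∧ IsProalgebraicCompletion Λ B j ∧ Nonempty (A ≃ₐc[ℂ] B)

/-- The profinite completions of `Γ` and `Λ` are isomorphic as profinite groups. -/
def ProfinitelyIsomorphic (Γ Λ : Type u) [Group Γ] [Group Λ] : Prop :=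
  Nonempty (ProfiniteGrp.profiniteCompletion.obj (GrpCat.of Γ) ≃ₜ*
    ProfiniteGrp.profiniteCompletion.obj (GrpCat.of Λ))

/-- `Λ` is proalgebraically rigid (among finitely generated residually finite groups). -/
def ProalgebraicallyRigid (Λ : Type u) [Group Λ] : Prop :=
  ∀ (Γ : Type u) [Group Γ] [Group.FG Γ] [Group.ResiduallyFinite Γ],
    ProalgebraicallyIsomorphic Γ Λ → Nonempty (Γ ≃* Λ)

/-- `Λ` is profinitely rigid (among finitely generated residually finite groups). -/
def ProfinitelyRigid (Λ : Type u) [Group Λ] : Prop :=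
  ∀ (Γ : Type u) [Group Γ] [Group.FG Γ] [Group.ResiduallyFinite Γ],
    ProfinitelyIsomorphic Γ Λ → Nonempty (Γ ≃* Λ)

end Pool.Agent.MP_27fe6f_al
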