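import Pool.Agent.MP_27fe6f_al.Repr

/-!
The Hopf algebra of representative functions of a group.
-/

namespace Pool.Agent.MP_27fe6f_al

open Matrix TensorProduct

section sep

variable {k : Type*} [Field k] {V W : Type*} [AddCommGroup V] [Module k V]
  [AddCommGroup W] [Module k W]

/-- Separating families of functionals on two vector spaces give a separating family on the
tensor product. -/
theorem tensor_sep {I J : Type*} (φ : I → (V →ₗ[k] k)) (ψ : J → (W →ₗ[k] k))
    (hφ : ∀ v, (∀ i, φ i v = 0) → v = 0) (hψ : ∀ w, (∀ j, ψ j w = 0) → w = 0)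
    (t : V ⊗[k] W) (ht : ∀ i j, LinearMap.mul' k k (TensorProduct.map (φ i) (ψ j) t) = 0) :
    t = 0 := by
  classical
  let ℬ := Module.Basis.ofVectorSpace k W
  let E := TensorProduct.equivFinsuppOfBasisRight (M := V) ℬ
  have key : ∀ (i) (b) (t : V ⊗[k] W),
      ℬ.repr (TensorProduct.lid k W (TensorProduct.map (φ i) LinearMap.id t)) b = φ i (E t b) := by
    intro i b t
    induction t with
    | zero => simp
    | add x y hx hy => simp only [map_add, Finsupp.add_apply, hx, hy]
    | tmul v w =>
      simp only [E]
      rw [TensorProduct.equivFinsuppOfBasisRight_apply_tmul_apply]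
      simp [mul_comm]
  have key2 : ∀ (i j) (t : V ⊗[k] W),
      LinearMap.mul' k k (TensorProduct.map (φ i) (ψ j) t) =
        ψ j (TensorProduct.lid k W (TensorProduct.map (φ i) LinearMap.id t)) := by
    intro i j t
    induction t with
    | zero => simp
    | add x y hx hy => simp only [map_add, hx, hy]
    | tmul v w => simp
  have h1 : ∀ i, TensorProduct.lid k W (TensorProduct.map (φ i) LinearMap.id t) = 0 := by
    intro i
    apply hψ
    intro j
    rw [← key2, ht]
  apply E.injective
  rw [map_zero]
  ext b
  apply hφ
  intro i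
  rw [← key, h1]
  simp

end sep

section hopf

variable (k : Type*) [Field k] (G : Type*) [Group G]

/-- The algebra of representative functions of a group, that is, of all matrix coefficients of its
finite dimensional representations. -/
def RepFun : Type _ := ↥(reprAlg (⊤ : Subring (G → k)))

noncomputable instance : CommRing (RepFun k G) :=
  inferInstanceAs (CommRing ↥(reprAlg (⊤ : Subring (G → k))))

noncomputable instance : Algebra k (RepFun k G) :=
  inferInstanceAs (Algebra k ↥(reprAlg (⊤ : Subring (G → k))))

variable {G}

/-- Evaluation of a representative function at a group element. -/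
noncomputable def ev (g : G) : RepFun k G →ₐ[k] k :=
  (Pi.evalAlgHom k (fun _ => k) g).comp (reprAlg (⊤ : Subring (G → k))).val

variable {k}

/-- Constructor for representative functions. -/
def RepFun.mk (f : G → k) (hf : IsRepr ⊤ f) : RepFun k G := ⟨f, hf⟩

@[simp] theorem ev_mk (g : G) (f : G → k) (hf : IsRepr ⊤ f) : ev k g (RepFun.mk f hf) = f g := rfl

theorem isRepr_ev (f : RepFun k G) : IsRepr ⊤ (fun g => ev k g f) := f.2

theorem ev_ext {f f' : RepFun k G} (h : ∀ g : G, ev k g f = ev k g f') : f = f' := by
  apply Subtype.ext
  funext g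
  exact h g

theorem ev_sep (f : RepFun k G) (h : ∀ g : G, ev k g f = 0) : f = 0 := by
  apply ev_ext
  intro g
  rw [h, map_zero]

variable (k) in
/-- Evaluation of an element of the tensor square at a pair of group elements. -/
noncomputable def evp (g h : G) : RepFun k G ⊗[k] RepFun k G →ₐ[k] k :=
  Algebra.TensorProduct.lift (ev k g) (ev k h) (fun _ _ => .all _ _)

@[simp] theorem evp_tmul (g h : G) (x y : RepFun k G) :
    evp k g h (x ⊗ₜ y) = ev k g x * ev k h y := by
  simp [evp]

variable (k G) in
/-- The evaluation map on the tensor square. -/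
noncomputable def ev2 : RepFun k G ⊗[k] RepFun k G →ₐ[k] (G × G → k) :=
  AlgHom.pi fun x => evp k x.1 x.2

@[simp] theorem ev2_apply (t : RepFun k G ⊗[k] RepFun k G) (g h : G) :
    ev2 k G t (g, h) = evp k g h t := rfl

theorem evp_sep (t : RepFun k G ⊗[k] RepFun k G) (ht : ∀ g h : G, evp k g h t = 0) : t = 0 := by
  apply tensor_sep (fun g : G => (ev k g).toLinearMap)
    (fun g : G => (ev k g).toLinearMap) (fun v hv => ev_sep v hv)
    (fun v hv => ev_sep v hv)
  intro g h
  rw [← ht g h]
  clear ht
  induction t with
  | zero => simp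
  | add x y hx hy => simp only [map_add, hx, hy]
  | tmul v w => simp

theorem evp_ext {t t' : RepFun k G ⊗[k] RepFun k G}
    (h : ∀ g h : G, evp k g h t = evp k g h t') : t = t' := by
  rw [← sub_eq_zero]
  apply evp_sep
  intro g h'
  rw [map_sub, h, sub_self]

theorem ev2_injective : Function.Injective (ev2 k G) := by
  intro t t' h
  apply evp_ext
  intro g h'
  exact congrFun h (g, h')

/-- A matrix coefficient as a representative function. -/
def mc {ι : Type} [Fintype ι] [DecidableEq ι] (ρ : G →* Matrix ι ι k) (a b : ι → k) :
    RepFun k G :=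
  RepFun.mk (fun g => a ⬝ᵥ (ρ g *ᵥ b)) ⟨ι, inferInstance, inferInstance, ρ, a, b,
    fun _ _ => Subring.mem_top _, fun _ => rfl⟩

@[simp] theorem ev_mc {ι : Type} [Fintype ι] [DecidableEq ι] (ρ : G →* Matrix ι ι k)
    (a b : ι → k) (g : G) : ev k g (mc ρ a b) = a ⬝ᵥ (ρ g *ᵥ b) := rfl

theorem exists_mc (f : RepFun k G) : ∃ (ι : Type) (_ : Fintype ι) (_ : DecidableEq ι)
    (ρ : G →* Matrix ι ι k) (a b : ι → k), f = mc ρ a b := by
  obtain ⟨ι, h1, h2, ρ, a, b, -, h⟩ := isRepr_ev f
  exact ⟨ι, h1, h2, ρ, a, b, ev_ext h⟩

/-- The comultiplication of a matrix coefficient. -/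
noncomputable def mcComul {ι : Type} [Fintype ι] [DecidableEq ι] (ρ : G →* Matrix ι ι k) (a b : ι → k) :
    RepFun k G ⊗[k] RepFun k G :=
  ∑ i, mc ρ a (Pi.single i 1) ⊗ₜ mc ρ (Pi.single i 1) b

theorem evp_mcComul {ι : Type} [Fintype ι] [DecidableEq ι] (ρ : G →* Matrix ι ι k) (a b : ι → k)
    (g h : G) : evp k g h (mcComul ρ a b) = ev k (g * h) (mc ρ a b) := by
  simp only [mcComul, map_sum, evp_tmul, ev_mc, single_dotProduct, mulVec_single, one_mul,
    map_mul, ← mulVec_mulVec]
  generalize ρ h *ᵥ b = w
  simp only [dotProduct, mulVec, MulOpposite.op_one, one_smul, Matrix.col_apply, Finset.sum_mul,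
    Finset.mul_sum]
  rw [Finset.sum_comm]
  exact Finset.sum_congr rfl fun i _ => Finset.sum_congr rfl fun j _ => by ring

/-- The map `f ↦ ((g, h) ↦ f (g h))`. -/
noncomputable def comulAux : RepFun k G →ₐ[k] (G × G → k) :=
  AlgHom.pi fun x => ev k (x.1 * x.2)

theorem comulAux_mem (f : RepFun k G) : comulAux f ∈ (ev2 k G).range := by
  obtain ⟨ι, _, _, ρ, a, b, rfl⟩ := exists_mc f
  exact ⟨mcComul ρ a b, funext fun x => evp_mcComul ρ a b x.1 x.2⟩

/-- The comultiplication on representative functions. -/
noncomputable def comulR : RepFun k G →ₐ[k] RepFun k G ⊗[k] RepFun k G :=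
  ((AlgEquiv.ofInjective (ev2 k G) ev2_injective).symm : _ →ₐ[k] _).comp
    (comulAux.codRestrict (ev2 k G).range comulAux_mem)

@[simp] theorem evp_comulR (f : RepFun k G) (g h : G) :
    evp k g h (comulR f) = ev k (g * h) f := by
  have h1 : ev2 k G (comulR f) = comulAux f := by
    have := (AlgEquiv.ofInjective (ev2 k G) ev2_injective).apply_symm_apply
      (comulAux.codRestrict (ev2 k G).range comulAux_mem f)
    exact congrArg Subtype.val this
  exact congrFun h1 (g, h)

variable (k) in
/-- Evaluation at a triple. -/
noncomputable def evt (g h l : G) : RepFun k G ⊗[k] (RepFun k G ⊗[k] RepFun k G) →ₐ[k] k :=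
  Algebra.TensorProduct.lift (ev k g) (evp k h l) (fun _ _ => .all _ _)

@[simp] theorem evt_tmul (g h l : G) (x : RepFun k G) (y : RepFun k G ⊗[k] RepFun k G) :
    evt k g h l (x ⊗ₜ y) = ev k g x * evp k h l y := by
  simp [evt]

theorem evt_ext {t t' : RepFun k G ⊗[k] (RepFun k G ⊗[k] RepFun k G)}
    (h : ∀ g h l : G, evt k g h l t = evt k g h l t') : t = t' := by
  rw [← sub_eq_zero]
  apply tensor_sep (fun g : G => (ev k g).toLinearMap)
    (fun x : G × G => (evp k x.1 x.2).toLinearMap)
    (fun v hv => ev_sep v hv) (fun v hv => evp_sep v (fun g h => hv (g, h)))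
  intro g x
  have h0 : evt k g x.1 x.2 (t - t') = 0 := by rw [map_sub, h, sub_self]
  rw [← h0]
  generalize t - t' = s
  induction s with
  | zero => simp
  | add x y hx hy => simp only [map_add, hx, hy]
  | tmul v w => simp

/-- The inverse map on representative functions. -/
noncomputable def antiR : RepFun k G →ₐ[k] RepFun k G :=
  (AlgHom.pi fun g : G => ev k g⁻¹).codRestrict (reprAlg (⊤ : Subring (G → k))) (by
    intro f
    obtain ⟨ι, _, _, ρ, a, b, -, h⟩ := isRepr_ev f
    refine ⟨ι, inferInstance, inferInstance,
      { toFun := fun g => (ρ g⁻¹)ᵀ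
        map_one' := by simp
        map_mul' := fun g h => by simp [Matrix.transpose_mul] },
      b, a, fun _ _ => Subring.mem_top _, ?_⟩
    intro g
    simp only [MonoidHom.coe_mk, OneHom.coe_mk]
    have := h g⁻¹
    simp only at this
    rw [Matrix.mulVec_transpose, dotProduct_comm, ← Matrix.dotProduct_mulVec]
    exact this)

@[simp] theorem ev_antiR (f : RepFun k G) (g : G) : ev k g (antiR f) = ev k g⁻¹ f := rfl

theorem evt_assoc_comul (t : RepFun k G ⊗[k] RepFun k G) (g h l : G) :
    evt k g h l (Algebra.TensorProduct.assoc k k k _ _ _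
      (Algebra.TensorProduct.map comulR (AlgHom.id k (RepFun k G)) t)) = evp k (g * h) l t := by
  have key : ((evt k g h l).comp (Algebra.TensorProduct.assoc k k k (RepFun k G) (RepFun k G)
      (RepFun k G)).toAlgHom).comp
      (Algebra.TensorProduct.map comulR (AlgHom.id k (RepFun k G))) = evp k (g * h) l := by
    have h3 : ∀ s : RepFun k G ⊗[k] RepFun k G, ∀ y : RepFun k G,
        evt k g h l ((Algebra.TensorProduct.assoc k k k (RepFun k G) (RepFun k G)
      (RepFun k G)) (s ⊗ₜ y)) = evp k g h s * ev k l y := by
      intro s y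
      induction s with
      | zero => simp
      | add s s' hs hs' => simp only [TensorProduct.add_tmul, map_add, hs, hs', add_mul]
      | tmul v w => simp [mul_assoc]
    apply Algebra.TensorProduct.ext'
    intro x y
    have h4 := h3 (comulR x) y
    rw [evp_comulR] at h4
    simpa using h4
  exact DFunLike.congr_fun key t

theorem evt_map_comul (t : RepFun k G ⊗[k] RepFun k G) (g h l : G) :
    evt k g h l (Algebra.TensorProduct.map (AlgHom.id k (RepFun k G)) comulR t) =
      evp k g (h * l) t := by
  have key : (evt k g h l).comp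
      (Algebra.TensorProduct.map (AlgHom.id k (RepFun k G)) comulR) = evp k g (h * l) := by
    apply Algebra.TensorProduct.ext'
    intro x y
    simp
  exact DFunLike.congr_fun key t

noncomputable instance : Bialgebra k (RepFun k G) :=
  Bialgebra.ofAlgHom comulR (ev k 1)
    (by
      apply AlgHom.ext
      intro f
      apply evt_ext
      intro g h l
      have h1 := evt_assoc_comul (comulR f) g h l
      have h2 := evt_map_comul (comulR f) g h l
      rw [evp_comulR] at h1 h2
      rw [mul_assoc] at h1
      exact h1.trans h2.symm)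
    (by
      apply AlgHom.ext
      intro f
      apply (Algebra.TensorProduct.lid k (RepFun k G)).injective
      apply ev_ext
      intro g
      have key : ∀ t : RepFun k G ⊗[k] RepFun k G,
        ev k g (Algebra.TensorProduct.lid k (RepFun k G)
          (Algebra.TensorProduct.map (ev k 1) (AlgHom.id k (RepFun k G)) t)) = evp k 1 g t := by
        intro t
        induction t with
        | zero => simp
        | add x y hx hy => simp only [map_add, hx, hy]
        | tmul v w => simp
      have := key (comulR f)
      rw [evp_comulR, one_mul] at this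
      refine Eq.trans this ?_
      simp)
    (by
      apply AlgHom.ext
      intro f
      apply (Algebra.TensorProduct.rid k k (RepFun k G)).injective
      apply ev_ext
      intro g
      have key : ∀ t : RepFun k G ⊗[k] RepFun k G,
        ev k g (Algebra.TensorProduct.rid k k (RepFun k G)
          (Algebra.TensorProduct.map (AlgHom.id k (RepFun k G)) (ev k 1) t)) = evp k g 1 t := by
        intro t
        induction t with
        | zero => simp
        | add x y hx hy => simp only [map_add, hx, hy]
        | tmul v w => simp [mul_comm]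
      have := key (comulR f)
      rw [evp_comulR, mul_one] at this
      refine Eq.trans this ?_
      simp)

theorem comul_repFun (f : RepFun k G) : Coalgebra.comul (R := k) f = comulR f := rfl

theorem counit_repFun (f : RepFun k G) : Coalgebra.counit (R := k) f = ev k 1 f := rfl

noncomputable instance : HopfAlgebra k (RepFun k G) where
  antipode := antiR.toLinearMap
  mul_antipode_rTensor_comul := by
    apply LinearMap.ext
    intro f
    apply ev_ext
    intro g
    have key : ∀ t : RepFun k G ⊗[k] RepFun k G,
        ev k g (LinearMap.mul' k (RepFun k G) (antiR.toLinearMap.rTensor (RepFun k G) t)) =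
          evp k g⁻¹ g t := by
      intro t
      induction t with
      | zero => simp
      | add x y hx hy => simp only [map_add, hx, hy]
      | tmul v w => simp
    have h1 := key (comulR f)
    rw [evp_comulR, inv_mul_cancel] at h1
    refine Eq.trans h1 ?_
    simp [counit_repFun]
  mul_antipode_lTensor_comul := by
    apply LinearMap.ext
    intro f
    apply ev_ext
    intro g
    have key : ∀ t : RepFun k G ⊗[k] RepFun k G,
        ev k g (LinearMap.mul' k (RepFun k G) (antiR.toLinearMap.lTensor (RepFun k G) t)) =
          evp k g g⁻¹ t := by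
      intro t
      induction t with
      | zero => simp
      | add x y hx hy => simp only [map_add, hx, hy]
      | tmul v w => simp
    have h1 := key (comulR f)
    rw [evp_comulR, mul_inv_cancel] at h1
    refine Eq.trans h1 ?_
    simp [counit_repFun]

end hopf

end Pool.Agent.MP_27fe6f_al
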