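import Pool.Agent.MP_27fe6f_al.Defs
import Pool.Agent.MP_27fe6f_al.Hopf

/-!
The Hopf algebra of representative functions is the coordinate ring of the proalgebraic completion.
-/

namespace Pool.Agent.MP_27fe6f_al

open Matrix TensorProduct WithConv Coalgebra

section rank

variable {k : Type*} [Field k] {G : Type*} [Group G]

/-- Right translation. -/
def rightTrans (k : Type*) [Field k] (G : Type*) [Group G] : G →* Module.End k (G → k) where
  toFun x := { toFun := fun F g => F (g * x), map_add' := fun _ _ => rfl, map_smul' := fun _ _ => rfl }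
  map_one' := by
    ext F g
    simp
  map_mul' x y := by
    ext F g
    simp [mul_assoc]

/-- A function of finite rank is a matrix coefficient. -/
theorem isRepr_of_rank (f : G → k) {J : Type*} (s : Finset J) (u w : J → G → k)
    (h : ∀ g h, f (g * h) = ∑ j ∈ s, u j g * w j h) : IsRepr ⊤ f := by
  classical
  let V : Submodule k (G → k) := Submodule.span k (Set.range fun x => rightTrans k G x f)
  have hV : V ≤ Submodule.span k ((s.image u : Finset (G → k)) : Set (G → k)) := by
    rw [Submodule.span_le]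
    rintro _ ⟨x, rfl⟩
    have : rightTrans k G x f = ∑ j ∈ s, w j x • u j := by
      funext g
      simp only [rightTrans, MonoidHom.coe_mk, OneHom.coe_mk, LinearMap.coe_mk, AddHom.coe_mk,
        h, Finset.sum_apply, Pi.smul_apply, smul_eq_mul]
      exact Finset.sum_congr rfl fun j _ => mul_comm _ _
    change rightTrans k G x f ∈ _
    rw [this]
    exact Submodule.sum_mem _ fun j hj => Submodule.smul_mem _ _
      (Submodule.subset_span (by simpa using ⟨j, hj, rfl⟩))
  have hfin : FiniteDimensional k V := by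
    have : FiniteDimensional k (Submodule.span k ((s.image u : Finset (G → k)) : Set (G → k))) :=
      FiniteDimensional.span_finset _ _
    exact Submodule.finiteDimensional_of_le hV
  have hstab : ∀ x, ∀ v ∈ V, rightTrans k G x v ∈ V := by
    intro x v hv
    induction hv using Submodule.span_induction with
    | mem v hv =>
      obtain ⟨y, rfl⟩ := hv
      apply Submodule.subset_span
      refine ⟨x * y, ?_⟩
      simp [map_mul]
    | zero => simp
    | add v w _ _ hv hw => rw [map_add]; exact V.add_mem hv hw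
    | smul c v _ hv => rw [map_smul]; exact V.smul_mem _ hv
  have hfV : f ∈ V := by
    apply Submodule.subset_span
    exact ⟨1, by simp⟩
  let r : G →* Module.End k V :=
    { toFun := fun x => (rightTrans k G x).restrict (hstab x)
      map_one' := by
        ext v
        simp
      map_mul' := fun x y => by
        ext v
        simp }
  let b := Module.finBasis k V
  let ev1 : V →ₗ[k] k := (LinearMap.proj (1 : G)).comp V.subtype
  refine ⟨Fin (Module.finrank k V), inferInstance, inferInstance,
    { toFun := fun x => LinearMap.toMatrix b b (r x)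
      map_one' := by simp
      map_mul' := fun x y => by
        rw [map_mul]
        exact LinearMap.toMatrix_mul b (r x) (r y) },
    fun i => ev1 (b i), b.repr ⟨f, hfV⟩, fun _ _ => Subring.mem_top _, ?_⟩
  intro g
  simp only [MonoidHom.coe_mk, OneHom.coe_mk]
  rw [LinearMap.toMatrix_mulVec_repr]
  have h1 : ev1 (r g ⟨f, hfV⟩) = f g := by
    simp [ev1, r, rightTrans]
  rw [← h1]
  conv_lhs => rw [← b.sum_repr (r g ⟨f, hfV⟩)]
  rw [map_sum]
  simp only [dotProduct, map_smul, smul_eq_mul]
  exact Finset.sum_congr rfl fun j _ => mul_comm _ _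

end rank

section universal

variable {Γ : Type*} [Group Γ]

theorem ofConv_mul_apply {H : Type*} [CommRing H] [HopfAlgebra ℂ H] (x y : Points H) (c : H)
    : (x * y).ofConv c = ∑ i ∈ (ℛ ℂ c).index, x.ofConv ((ℛ ℂ c).left i) * y.ofConv ((ℛ ℂ c).right i) := by
  have := AlgHom.convMul_apply x y c
  change (x * y).ofConv c = _ at this
  rw [this, ← (ℛ ℂ c).eq]
  simp

/-- The canonical map from `Γ` to the complex points. -/
noncomputable def evHom (Γ : Type*) [Group Γ] : Γ →* Points (RepFun ℂ Γ) where
  toFun g := toConv (ev ℂ g)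
  map_one' := by
    apply WithConv.ext
    apply AlgHom.ext
    intro f
    rfl
  map_mul' g h := by
    apply WithConv.ext
    apply AlgHom.ext
    intro f
    have := AlgHom.convMul_apply (toConv (ev ℂ g)) (toConv (ev ℂ h)) f
    refine Eq.trans ?_ this.symm
    exact (evp_comulR f g h).symm

@[simp] theorem evHom_apply (g : Γ) (f : RepFun ℂ Γ) : (evHom Γ g).ofConv f = ev ℂ g f := rfl

theorem map_evp {H : Type*} [CommRing H] [HopfAlgebra ℂ H] (φ : H →ₐ[ℂ] RepFun ℂ Γ) (g h : Γ)
    (t : H ⊗[ℂ] H) :
    evp ℂ g h (Algebra.TensorProduct.map φ φ t) =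
      Algebra.TensorProduct.lift ((ev ℂ g).comp φ) ((ev ℂ h).comp φ) (fun _ _ => .all _ _) t := by
  induction t with
  | zero => simp
  | add x y hx hy => simp only [map_add, hx, hy]
  | tmul v w => simp

/-- The universal property of the Hopf algebra of representative functions. -/
theorem repFun_universal {H : Type*} [CommRing H] [HopfAlgebra ℂ H] (ρ : Γ →* Points H) :
    ∃! φ : H →ₐc[ℂ] RepFun ℂ Γ, ∀ (γ : Γ) (x : H), (ρ γ).ofConv x = (evHom Γ γ).ofConv (φ x) := by
  have hmem : ∀ x : H, IsRepr (⊤ : Subring (Γ → ℂ)) (fun γ => (ρ γ).ofConv x) := by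
    intro x
    apply isRepr_of_rank _ (ℛ ℂ x).index (fun i γ => (ρ γ).ofConv ((ℛ ℂ x).left i))
      (fun i γ => (ρ γ).ofConv ((ℛ ℂ x).right i))
    intro g h
    rw [map_mul, ofConv_mul_apply]
  let φ₀ : H →ₐ[ℂ] RepFun ℂ Γ :=
    (AlgHom.pi fun γ : Γ => (ρ γ).ofConv).codRestrict (reprAlg (⊤ : Subring (Γ → ℂ))) hmem
  have hφ₀ : ∀ γ x, ev ℂ γ (φ₀ x) = (ρ γ).ofConv x := fun γ x => rfl
  have hφ₀' : ∀ γ, (ev ℂ γ).comp φ₀ = (ρ γ).ofConv := fun γ => AlgHom.ext fun x => hφ₀ γ x
  let φ : H →ₐc[ℂ] RepFun ℂ Γ := BialgHom.ofAlgHom φ₀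
    (by
      apply AlgHom.ext
      intro x
      change ev ℂ 1 (φ₀ x) = Coalgebra.counit x
      rw [hφ₀, map_one]
      exact AlgHom.convOne_apply x)
    (by
      apply AlgHom.ext
      intro x
      apply evp_ext
      intro g h
      have h1 := map_evp φ₀ g h (comul x)
      rw [hφ₀', hφ₀'] at h1
      have h2 : evp ℂ g h (comulR (φ₀ x)) = ev ℂ (g * h) (φ₀ x) := evp_comulR _ _ _
      rw [hφ₀, map_mul] at h2
      have h3 := AlgHom.convMul_apply (ρ g) (ρ h) x
      exact h1.trans (h3.symm.trans h2.symm))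
  refine ⟨φ, fun γ x => rfl, ?_⟩
  intro ψ hψ
  apply BialgHom.ext
  intro x
  apply ev_ext
  intro γ
  exact (hψ γ x).symm

theorem isProalgebraicCompletion_repFun (Γ : Type*) [Group Γ] :
    IsProalgebraicCompletion Γ (RepFun ℂ Γ) (evHom Γ) :=
  fun _ _ _ _ ρ => repFun_universal ρ

end universal

end Pool.Agent.MP_27fe6f_al
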