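import Pool.Agent.MP_27fe6f_al.Profinite
import Pool.Agent.MP_27fe6f_al.Universal

/-!
Isomorphic profinite completions give isomorphic Hopf algebras of representative functions.
-/

namespace Pool.Agent.MP_27fe6f_al

open Matrix TensorProduct WithConv Coalgebra

section restrict

variable {Γ P : Type*} [Group Γ] [Group P] [TopologicalSpace P] (i : Γ →* P) (π : RR →+* ℂ)

/-- Restriction and reduction of a representation. -/
noncomputable def redRep {ι : Type} [Fintype ι] [DecidableEq ι] (ρ : P →* Matrix ι ι RR) :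
    Γ →* Matrix ι ι ℂ :=
  ((π.mapMatrix : Matrix ι ι RR →+* Matrix ι ι ℂ).toMonoidHom.comp ρ).comp i

omit [TopologicalSpace P] in
theorem redRep_coeff {ι : Type} [Fintype ι] [DecidableEq ι] (ρ : P →* Matrix ι ι RR)
    (a b : ι → RR) (g : Γ) :
    (fun k => π (a k)) ⬝ᵥ (redRep i π ρ g *ᵥ fun k => π (b k)) = π (a ⬝ᵥ (ρ (i g) *ᵥ b)) := by
  simp [dotProduct, mulVec, redRep]

/-- The algebra of matrix coefficients on `P`. -/
noncomputable abbrev MP (P : Type*) [Group P] [TopologicalSpace P] : Subalgebra RR (P → RR) :=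
  reprAlg (locConst P)

theorem isRepr_res {F : P → RR} (hF : F ∈ MP P) :
    IsRepr (⊤ : Subring (Γ → ℂ)) (fun g => π (F (i g))) := by
  obtain ⟨ι, _, _, ρ, a, b, -, h⟩ := hF
  refine ⟨ι, inferInstance, inferInstance, redRep i π ρ, fun k => π (a k), fun k => π (b k),
    fun _ _ => Subring.mem_top _, ?_⟩
  intro g
  rw [redRep_coeff]
  exact congrArg π (h (i g))

/-- Restriction to `Γ` followed by reduction. -/
noncomputable def res : MP P →+* RepFun ℂ Γ where
  toFun F := RepFun.mk (fun g => π (F.1 (i g))) (isRepr_res i π F.2)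
  map_one' := by
    apply ev_ext
    intro g
    simp
  map_mul' F F' := by
    apply ev_ext
    intro g
    simp
  map_zero' := by
    apply ev_ext
    intro g
    simp
  map_add' F F' := by
    apply ev_ext
    intro g
    simp

@[simp] theorem ev_res (F : MP P) (g : Γ) : ev ℂ g (res i π F) = π (F.1 (i g)) := rfl

variable {i}

theorem res_surjective [Group.FG Γ] (hi : IsProf i) (hπ : Function.Surjective π) :
    Function.Surjective (res i π) := by
  intro f
  obtain ⟨F, hF, h⟩ := exists_lift hi π hπ (isRepr_ev f)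
  exact ⟨⟨F, hF⟩, ev_ext h⟩

theorem mem_ker_res [Group.FG Γ] (hi : IsProf i) (F : MP P) :
    F ∈ RingHom.ker (res i π) ↔ ∀ x, π (F.1 x) = 0 := by
  rw [RingHom.mem_ker]
  constructor
  · intro h x
    apply vanish_of_vanish hi π F.2
    intro g
    rw [← ev_res, h, map_zero]
  · intro h
    apply ev_ext
    intro g
    rw [ev_res, h, map_zero]

/-- A matrix coefficient on `P`. -/
noncomputable def mcP {ι : Type} [Fintype ι] [DecidableEq ι] (ρ : P →* Matrix ι ι RR)
    (hρ : ∀ i j, (fun g => ρ g i j) ∈ locConst P) (a b : ι → RR) : MP P :=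
  ⟨fun x => a ⬝ᵥ (ρ x *ᵥ b), ι, inferInstance, inferInstance, ρ, a, b, hρ, fun _ => rfl⟩

theorem res_mcP (i : Γ →* P) {ι : Type} [Fintype ι] [DecidableEq ι] (ρ : P →* Matrix ι ι RR)
    (hρ : ∀ i j, (fun g => ρ g i j) ∈ locConst P) (a b : ι → RR) :
    res i π (mcP ρ hρ a b) = mc (redRep i π ρ) (fun k => π (a k)) (fun k => π (b k)) := by
  apply ev_ext
  intro g
  rw [ev_mc, redRep_coeff, ev_res]
  rfl

theorem exists_mcP (F : MP P) : ∃ (ι : Type) (_ : Fintype ι) (_ : DecidableEq ι)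
    (ρ : P →* Matrix ι ι RR) (hρ : ∀ i j, (fun g => ρ g i j) ∈ locConst P) (a b : ι → RR),
    F = mcP ρ hρ a b := by
  obtain ⟨F, ι, h1, h2, ρ, a, b, hρ, h⟩ := F
  exact ⟨ι, h1, h2, ρ, hρ, a, b, Subtype.ext (funext h)⟩

theorem comulR_mc {ι : Type} [Fintype ι] [DecidableEq ι] (σ : Γ →* Matrix ι ι ℂ)
    (a b : ι → ℂ) : comulR (mc σ a b) = mcComul σ a b := by
  apply evp_ext
  intro g h
  rw [evp_comulR, evp_mcComul]

end restrict

theorem exists_bialgEquiv {Γ Λ P : Type*} [Group Γ] [Group Λ] [Group P] [TopologicalSpace P]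
    [Group.FG Γ] [Group.FG Λ] {i : Γ →* P} {j : Λ →* P} (hi : IsProf i) (hj : IsProf j) :
    Nonempty (RepFun ℂ Γ ≃ₐc[ℂ] RepFun ℂ Λ) := by
  obtain ⟨π, hπ⟩ := exists_surj_complex
  have hsi := res_surjective π hi hπ
  have hsj := res_surjective π hj hπ
  have hker : RingHom.ker (res i π) = RingHom.ker (res j π) := by
    ext F
    rw [mem_ker_res π hi, mem_ker_res π hj]
  let e₀ : RepFun ℂ Γ ≃+* RepFun ℂ Λ :=
    ((RingHom.quotientKerEquivOfSurjective hsi).symm.trans (Ideal.quotEquivOfEq hker)).trans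
      (RingHom.quotientKerEquivOfSurjective hsj)
  have he₀ : ∀ F, e₀ (res i π F) = res j π F := by
    intro F
    have h1 : (RingHom.quotientKerEquivOfSurjective hsi).symm (res i π F) =
        Ideal.Quotient.mk _ F := by
      rw [RingEquiv.symm_apply_eq]
      rfl
    simp only [e₀, RingEquiv.trans_apply, h1]
    rfl
  let e : RepFun ℂ Γ ≃ₐ[ℂ] RepFun ℂ Λ := AlgEquiv.ofRingEquiv (f := e₀) (by
    intro c
    obtain ⟨c', rfl⟩ := hπ c
    have h1 : algebraMap ℂ (RepFun ℂ Γ) (π c') = res i π (algebraMap RR (MP P) c') := by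
      apply ev_ext
      intro g
      rw [AlgHom.commutes, ev_res]
      rfl
    have h2 : algebraMap ℂ (RepFun ℂ Λ) (π c') = res j π (algebraMap RR (MP P) c') := by
      apply ev_ext
      intro g
      rw [AlgHom.commutes, ev_res]
      rfl
    rw [h1, h2, he₀])
  have he : ∀ F, e (res i π F) = res j π F := he₀
  have hmc : ∀ (ι : Type) [Fintype ι] [DecidableEq ι] (ρ : P →* Matrix ι ι RR)
      (hρ : ∀ i j, (fun g => ρ g i j) ∈ locConst P) (a b : ι → ℂ),
      e (mc (redRep i π ρ) a b) = mc (redRep j π ρ) a b := by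
    intro ι _ _ ρ hρ a b
    obtain ⟨r, hr⟩ := hπ.hasRightInverse
    have hr : ∀ c, π (r c) = c := hr
    have h1 := he (mcP ρ hρ (fun k => r (a k)) (fun k => r (b k)))
    rw [res_mcP, res_mcP] at h1
    simpa [hr] using h1
  refine ⟨BialgEquiv.ofAlgEquiv e ?_ ?_⟩
  · apply AlgHom.ext
    intro f
    obtain ⟨F, rfl⟩ := hsi f
    change ev ℂ 1 (e (res i π F)) = ev ℂ 1 (res i π F)
    rw [he, ev_res, ev_res, map_one, map_one]
  · apply AlgHom.ext
    intro f
    obtain ⟨F, rfl⟩ := hsi f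
    change Algebra.TensorProduct.map (e : RepFun ℂ Γ →ₐ[ℂ] RepFun ℂ Λ)
      (e : RepFun ℂ Γ →ₐ[ℂ] RepFun ℂ Λ) (comulR (res i π F)) = comulR (e (res i π F))
    obtain ⟨ι, _, _, ρ, hρ, a, b, rfl⟩ := exists_mcP F
    rw [he, res_mcP, res_mcP, comulR_mc, comulR_mc]
    rw [mcComul, mcComul, map_sum]
    refine Finset.sum_congr rfl fun x _ => ?_
    rw [Algebra.TensorProduct.map_tmul]
    exact congrArg₂ (fun u v => u ⊗ₜ[ℂ] v) (hmc ι ρ hρ _ _) (hmc ι ρ hρ _ _)

end Pool.Agent.MP_27fe6f_al
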