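import Mathlib

/-!
Two finiteness statements that follow from Hilbert's basis theorem.
-/

namespace Pool.Agent.MP_27fe6f_al

open Matrix

/-- Hilbert's basis theorem: the common zeros of a family of integer polynomials are those of a
finite subfamily, uniformly over all commutative rings. -/
theorem hilbert {σ : Type} [Finite σ] {J : Type*} (f : J → MvPolynomial σ ℤ) :
    ∃ s : Finset J, ∀ (A : Type) [CommRing A] (x : σ → A),
      (∀ j ∈ s, MvPolynomial.aeval x (f j) = 0) → ∀ j, MvPolynomial.aeval x (f j) = 0 := by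
  classical
  have h1 : (Ideal.span (Set.range f)).FG := IsNoetherian.noetherian _
  obtain ⟨s', hs', hs''⟩ := (Submodule.fg_span_iff_fg_span_finset_subset (Set.range f)).1 h1
  obtain ⟨s, hs⟩ := (Finset.subset_set_image_iff (s := Set.univ) (f := f) (t := s')).1 (by
    simpa using hs')
  obtain ⟨-, hs⟩ := hs
  refine ⟨s, fun A _ x hx j => ?_⟩
  have h2 : f j ∈ Ideal.span (s' : Set (MvPolynomial σ ℤ)) := by
    have : f j ∈ Submodule.span (MvPolynomial σ ℤ) (Set.range f) :=
      Submodule.subset_span ⟨j, rfl⟩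
    rw [hs''] at this
    exact this
  have h3 : Ideal.span (s' : Set (MvPolynomial σ ℤ)) ≤
      RingHom.ker (MvPolynomial.aeval x : MvPolynomial σ ℤ →ₐ[ℤ] A) := by
    rw [Ideal.span_le]
    intro y hy
    rw [← hs] at hy
    simp only [Finset.coe_image, Set.mem_image] at hy
    obtain ⟨j, hj, rfl⟩ := hy
    exact hx j hj
  exact h3 h2

variable {n : ℕ} {ι : Type} [Fintype ι] [DecidableEq ι]

/-- The word map, extended multiplicatively from the values on the letters. -/
def word {A : Type*} [CommRing A] (M : Fin n → Matrix ι ι A) :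
    FreeMonoid (Fin n) →* Matrix ι ι A := FreeMonoid.lift M

theorem map_word {A B : Type*} [CommRing A] [CommRing B] (φ : A →+* B)
    (M : Fin n → Matrix ι ι A) (w : FreeMonoid (Fin n)) :
    (word M w).map φ = word (fun s => (M s).map φ) w := by
  have h : (φ.mapMatrix : Matrix ι ι A →+* Matrix ι ι B).toMonoidHom.comp (word M) =
      word (fun s => (M s).map φ) := by
    apply FreeMonoid.hom_eq
    intro x
    simp [word]
  exact DFunLike.congr_fun h w

/-- Uniform finiteness of relations. -/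
theorem exists_finset_rel {Γ : Type*} (φ : FreeMonoid (Fin n) → Γ) :
    ∃ s : Finset ({w : FreeMonoid (Fin n) × FreeMonoid (Fin n) // φ w.1 = φ w.2} × ι × ι),
      ∀ (A : Type) [CommRing A] (M : Fin n → Matrix ι ι A),
      (∀ j ∈ s, word M j.1.1.1 j.2.1 j.2.2 - word M j.1.1.2 j.2.1 j.2.2 = 0) →
      ∀ w w', φ w = φ w' → word M w = word M w' := by
  classical
  let X : Fin n → Matrix ι ι (MvPolynomial (Fin n × ι × ι) ℤ) :=
    fun s => Matrix.of fun i j => MvPolynomial.X (s, i, j)
  obtain ⟨s, hs⟩ := hilbert (fun j : {w : FreeMonoid (Fin n) × FreeMonoid (Fin n) //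
      φ w.1 = φ w.2} × ι × ι =>
      word X j.1.1.1 j.2.1 j.2.2 - word X j.1.1.2 j.2.1 j.2.2)
  refine ⟨s, fun A _ M hM => ?_⟩
  have key : ∀ (w : FreeMonoid (Fin n)) (i j : ι),
      MvPolynomial.aeval (fun x : Fin n × ι × ι => M x.1 x.2.1 x.2.2) (word X w i j) =
        word M w i j := by
    intro w i j
    have := map_word (MvPolynomial.aeval (R := ℤ)
      (fun x : Fin n × ι × ι => M x.1 x.2.1 x.2.2)).toRingHom X w
    have h2 : (fun s => (X s).map (MvPolynomial.aeval (R := ℤ)
      (fun x : Fin n × ι × ι => M x.1 x.2.1 x.2.2)).toRingHom) = M := by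
      funext s
      ext i j
      simp [X]
    rw [h2] at this
    exact congrFun (congrFun this i) j
  have h1 := hs A (fun x : Fin n × ι × ι => M x.1 x.2.1 x.2.2) (by
    intro j hj
    rw [map_sub, key, key]
    exact hM j hj)
  intro w w' hw
  ext i j
  have h2 := h1 (⟨(w, w'), hw⟩, i, j)
  rw [map_sub, key, key] at h2
  exact sub_eq_zero.1 h2

/-- Uniform finiteness for the vanishing of a matrix coefficient. -/
theorem exists_finset_coeff (n : ℕ) (ι : Type) [Fintype ι] [DecidableEq ι] :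
    ∃ s : Finset (FreeMonoid (Fin n)),
      ∀ (A : Type) [CommRing A] (M : Fin n → Matrix ι ι A) (a b : ι → A),
      (∀ w ∈ s, a ⬝ᵥ (word M w *ᵥ b) = 0) → ∀ w, a ⬝ᵥ (word M w *ᵥ b) = 0 := by
  classical
  let X : Fin n → Matrix ι ι (MvPolynomial ((Fin n × ι × ι) ⊕ ι ⊕ ι) ℤ) :=
    fun s => Matrix.of fun i j => MvPolynomial.X (Sum.inl (s, i, j))
  let Y : ι → MvPolynomial ((Fin n × ι × ι) ⊕ ι ⊕ ι) ℤ :=
    fun i => MvPolynomial.X (Sum.inr (Sum.inl i))
  let Z : ι → MvPolynomial ((Fin n × ι × ι) ⊕ ι ⊕ ι) ℤ :=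
    fun i => MvPolynomial.X (Sum.inr (Sum.inr i))
  obtain ⟨s, hs⟩ := hilbert (fun w : FreeMonoid (Fin n) => Y ⬝ᵥ (word X w *ᵥ Z))
  refine ⟨s, fun A _ M a b hM => ?_⟩
  let x : (Fin n × ι × ι) ⊕ ι ⊕ ι → A :=
    Sum.elim (fun x => M x.1 x.2.1 x.2.2) (Sum.elim a b)
  have key : ∀ (w : FreeMonoid (Fin n)),
      MvPolynomial.aeval x (Y ⬝ᵥ (word X w *ᵥ Z)) = a ⬝ᵥ (word M w *ᵥ b) := by
    intro w
    have := map_word (MvPolynomial.aeval (R := ℤ) x).toRingHom X w
    have h2 : (fun s => (X s).map (MvPolynomial.aeval (R := ℤ) x).toRingHom) = M := by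
      funext s
      ext i j
      simp [X, x]
    rw [h2] at this
    rw [← this]
    simp only [dotProduct, mulVec, map_sum, map_mul]
    simp [Y, Z, x]
  have h1 := hs A x (by
    intro j hj
    rw [key]
    exact hM j hj)
  intro w
  rw [← key]
  exact h1 w

end Pool.Agent.MP_27fe6f_al
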