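import Mathlib

/-!
Algebras of matrix coefficients.
-/

namespace Pool.Agent.MP_27fe6f_al

open Matrix TensorProduct

section general

variable {A : Type*} [CommRing A] {G : Type*} [Monoid G]

/-- `f` is a matrix coefficient of a finite dimensional representation all of whose matrix entries
lie in `𝒬`. -/
def IsRepr (𝒬 : Subring (G → A)) (f : G → A) : Prop :=
  ∃ (ι : Type) (_ : Fintype ι) (_ : DecidableEq ι) (ρ : G →* Matrix ι ι A) (a b : ι → A),
    (∀ i j, (fun g => ρ g i j) ∈ 𝒬) ∧ ∀ g, f g = a ⬝ᵥ (ρ g *ᵥ b)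

theorem IsRepr.const (𝒬 : Subring (G → A)) (c : A) : IsRepr 𝒬 (fun _ => c) := by
  refine ⟨Unit, inferInstance, inferInstance, 1, fun _ => c, fun _ => 1, ?_, ?_⟩
  · intro i j
    have : (fun g : G => (1 : G →* Matrix Unit Unit A) g i j) = 1 := by
      funext g
      simp
    rw [this]
    exact 𝒬.one_mem
  · intro g
    simp

theorem IsRepr.add {𝒬 : Subring (G → A)} {f f' : G → A} (hf : IsRepr 𝒬 f) (hf' : IsRepr 𝒬 f') :
    IsRepr 𝒬 (f + f') := by
  obtain ⟨ι, _, _, ρ, a, b, h1, h2⟩ := hf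
  obtain ⟨ι', _, _, ρ', a', b', h1', h2'⟩ := hf'
  refine ⟨ι ⊕ ι', inferInstance, inferInstance,
    { toFun := fun g => Matrix.fromBlocks (ρ g) 0 0 (ρ' g)
      map_one' := by simp
      map_mul' := fun g h => by simp [Matrix.fromBlocks_multiply] },
    Sum.elim a a', Sum.elim b b', ?_, ?_⟩
  · rintro (i | i) (j | j)
    · exact h1 i j
    · exact 𝒬.zero_mem
    · exact 𝒬.zero_mem
    · exact h1' i j
  · intro g
    simp [Matrix.fromBlocks_mulVec, h2, h2']

theorem IsRepr.mul {𝒬 : Subring (G → A)} {f f' : G → A} (hf : IsRepr 𝒬 f) (hf' : IsRepr 𝒬 f') :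
    IsRepr 𝒬 (f * f') := by
  obtain ⟨ι, _, _, ρ, a, b, h1, h2⟩ := hf
  obtain ⟨ι', _, _, ρ', a', b', h1', h2'⟩ := hf'
  refine ⟨ι × ι', inferInstance, inferInstance,
    { toFun := fun g => Matrix.kroneckerMap (· * ·) (ρ g) (ρ' g)
      map_one' := by simp
      map_mul' := fun g h => by simp [Matrix.mul_kronecker_mul] },
    fun x => a x.1 * a' x.2, fun x => b x.1 * b' x.2, ?_, ?_⟩
  · rintro ⟨i, i'⟩ ⟨j, j'⟩
    exact 𝒬.mul_mem (h1 i j) (h1' i' j')
  · intro g
    simp only [Pi.mul_apply, h2, h2', dotProduct, mulVec, MonoidHom.coe_mk, OneHom.coe_mk,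
      Matrix.kroneckerMap_apply, Fintype.sum_prod_type]
    have key : ∀ (i : ι) (i' : ι'), ∑ j, ∑ j', ρ g i j * ρ' g i' j' * (b j * b' j') =
        (∑ j, ρ g i j * b j) * ∑ j', ρ' g i' j' * b' j' := by
      intro i i'
      rw [Finset.sum_mul_sum]
      exact Finset.sum_congr rfl fun j _ => Finset.sum_congr rfl fun j' _ => by ring
    simp only [key]
    rw [Finset.sum_mul_sum]
    exact Finset.sum_congr rfl fun j _ => Finset.sum_congr rfl fun j' _ => by ring

/-- The algebra of matrix coefficients with entries in `𝒬`. -/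
def reprAlg (𝒬 : Subring (G → A)) : Subalgebra A (G → A) where
  carrier := {f | IsRepr 𝒬 f}
  mul_mem' := IsRepr.mul
  add_mem' := IsRepr.add
  algebraMap_mem' c := IsRepr.const 𝒬 c

theorem mem_reprAlg {𝒬 : Subring (G → A)} {f : G → A} : f ∈ reprAlg 𝒬 ↔ IsRepr 𝒬 f := Iff.rfl

end general

end Pool.Agent.MP_27fe6f_al
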