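import Mathlib

/-!
Every algebraically closed field of characteristic zero and of the cardinality of the continuum,
in particular `ℂ`, is a quotient of the product of the algebraic closures of the prime fields.
-/

namespace Pool.Agent.MP_27fe6f_al

open Polynomial Cardinal

instance factPrimes (p : Nat.Primes) : Fact ((p : ℕ).Prime) := ⟨p.2⟩

/-- The algebraic closure of the prime field of characteristic `p`. -/
abbrev Kp (p : Nat.Primes) : Type := AlgebraicClosure (ZMod (p : ℕ))

/-- The product of the algebraic closures of all prime fields. -/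
abbrev RR : Type := ∀ p : Nat.Primes, Kp p

/-- The ideal of finitely supported families. -/
def finSupp : Ideal RR where
  carrier := {x | {p | x p ≠ 0}.Finite}
  add_mem' := by
    intro a b ha hb
    refine (ha.union hb).subset ?_
    intro p hp
    by_contra h
    simp only [Set.mem_union, Set.mem_ofPred_eq, not_or, not_not] at h
    exact hp (by simp [h.1, h.2])
  zero_mem' := by simp
  smul_mem' := by
    intro c x hx
    refine Set.Finite.subset hx ?_
    intro p hp hx0
    exact hp (by simp [hx0])

theorem mem_finSupp {x : RR} : x ∈ finSupp ↔ {p | x p ≠ 0}.Finite := Iff.rfl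

theorem finSupp_ne_top : finSupp ≠ ⊤ := by
  intro h
  have h1 : (1 : RR) ∈ finSupp := by rw [h]; trivial
  rw [mem_finSupp] at h1
  have h2 : {p : Nat.Primes | (1 : RR) p ≠ 0} = Set.univ := by
    ext p; simp
  rw [h2] at h1
  exact Set.infinite_univ h1

/-- If `x p ≠ 0` for all but finitely many `p`, then `x` is not in a proper ideal containing the
finitely supported families. -/
theorem notMem_of_cofinite {m : Ideal RR} (hm : m ≠ ⊤) (hle : finSupp ≤ m) {x : RR}
    (hx : {p | x p = 0}.Finite) : x ∉ m := by
  intro hxm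
  apply hm
  rw [Ideal.eq_top_iff_one]
  have h1 : (1 : RR) - (fun p => (x p)⁻¹) * x ∈ finSupp := by
    rw [mem_finSupp]
    refine hx.subset ?_
    intro p hp
    by_contra h0
    apply hp
    have : (x p)⁻¹ * x p = 1 := inv_mul_cancel₀ h0
    simp [this]
  have h2 := m.add_mem (hle h1) (m.mul_mem_left (fun p => (x p)⁻¹) hxm)
  simpa using h2

section field

variable (m : Ideal RR) [hmax : m.IsMaximal]

theorem natCast_zero_finite (n : ℕ) (hn : n ≠ 0) : {p : Nat.Primes | (n : RR) p = 0}.Finite := by
  have h1 : {p : Nat.Primes | (n : RR) p = 0} ⊆ {p : Nat.Primes | (p : ℕ) ≤ n} := by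
    intro p hp
    simp only [Set.mem_ofPred_eq, Pi.natCast_apply] at hp
    have : (p : ℕ) ∣ n := (CharP.cast_eq_zero_iff (Kp p) (p : ℕ) n).1 hp
    exact Nat.le_of_dvd (Nat.pos_of_ne_zero hn) this
  refine Set.Finite.subset ?_ h1
  have : ({k : ℕ | k ≤ n}).Finite := Set.finite_le_nat n
  exact this.preimage (Subtype.val_injective.injOn)

theorem charZero_quot (hle : finSupp ≤ m) : CharZero (RR ⧸ m) := by
  apply charZero_of_inj_zero
  intro n hn
  by_contra h0
  have h1 : (Ideal.Quotient.mk m) (n : RR) = 0 := by simpa using hn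
  rw [Ideal.Quotient.eq_zero_iff_mem] at h1
  exact notMem_of_cofinite hmax.ne_top hle (natCast_zero_finite n h0) h1

theorem isAlgClosed_quot : @IsAlgClosed (RR ⧸ m) (Ideal.Quotient.field m) := by
  let _ : Field (RR ⧸ m) := Ideal.Quotient.field m
  apply IsAlgClosed.of_exists_root
  intro f hf hirr
  obtain ⟨q, hq, hdeg, hmon⟩ := lifts_and_natDegree_eq_and_monic (f := Ideal.Quotient.mk m)
    (p := f) (by
      rw [Polynomial.lifts_iff_coeff_lifts]
      intro n
      exact Ideal.Quotient.mk_surjective _) hf
  have hpos : 0 < q.natDegree := by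
    rw [hdeg]
    exact hirr.natDegree_pos
  have hroot : ∀ p : Nat.Primes, ∃ x : Kp p, (q.map (Pi.evalRingHom (fun p => Kp p) p)).eval x = 0 := by
    intro p
    obtain ⟨x, hx⟩ := IsAlgClosed.exists_root (q.map (Pi.evalRingHom (fun p => Kp p) p)) (by
      have hm' : (q.map (Pi.evalRingHom (fun p => Kp p) p)).Monic := hmon.map _
      have : (q.map (Pi.evalRingHom (fun p => Kp p) p)).natDegree = q.natDegree :=
        hmon.natDegree_map _
      rw [Polynomial.degree_eq_natDegree hm'.ne_zero, this]
      exact_mod_cast hpos.ne')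
    exact ⟨x, hx⟩
  choose x hx using hroot
  refine ⟨Ideal.Quotient.mk m x, ?_⟩
  have h0 : q.eval x = 0 := by
    funext p
    have := hx p
    have h2 : (q.map (Pi.evalRingHom (fun p => Kp p) p)).eval ((Pi.evalRingHom (fun p => Kp p) p) x)
        = (Pi.evalRingHom (fun p => Kp p) p) (q.eval x) := Polynomial.eval_map_apply _ _
    rw [Pi.evalRingHom_apply] at h2
    rw [this] at h2
    exact h2.symm
  have h3 : (q.map (Ideal.Quotient.mk m)).eval (Ideal.Quotient.mk m x) =
    Ideal.Quotient.mk m (q.eval x) := Polynomial.eval_map_apply _ _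
  rw [← hq, h3, h0, map_zero]

theorem countable_Kp (p : Nat.Primes) : Countable (Kp p) := by
  have h := Algebraic.countable (ZMod (p : ℕ)) (Kp p)
  have h2 : {x : Kp p | IsAlgebraic (ZMod (p : ℕ)) x} = Set.univ := by
    ext x
    simp [Algebra.IsAlgebraic.isAlgebraic]
  rw [h2] at h
  exact Set.countable_univ_iff.1 h

instance infinite_Kp (p : Nat.Primes) : Infinite (Kp p) := inferInstance

theorem exists_inj (p : Nat.Primes) :
    ∃ f : (Fin (p : ℕ) → Bool) → Kp p, Function.Injective f := by
  obtain ⟨e⟩ : Nonempty (ℕ ↪ Kp p) := ⟨Infinite.natEmbedding _⟩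
  exact ⟨fun x => e (Encodable.encode x), fun x y h => Encodable.encode_injective (e.injective h)⟩

theorem card_quot (hle : finSupp ≤ m) : #(RR ⧸ m) = 𝔠 := by
  apply le_antisymm
  · calc #(RR ⧸ m) ≤ #RR := mk_le_of_surjective Ideal.Quotient.mk_surjective
      _ ≤ #(Nat.Primes → ℕ) := by
        have hc : ∀ p : Nat.Primes, ∃ f : Kp p → ℕ, Function.Injective f := fun p =>
          (countable_iff_exists_injective _).1 (countable_Kp p)
        choose f hf using hc
        refine mk_le_of_injective (f := fun (x : RR) (p : Nat.Primes) => f p (x p)) ?_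
        intro x y h
        funext p
        exact hf p (congrFun h p)
      _ ≤ 𝔠 := by
        rw [mk_arrow]
        simp
  · choose f hf using exists_inj
    have : #(ℕ → Bool) = 𝔠 := by simp
    rw [← this]
    refine mk_le_of_injective (f := fun (b : ℕ → Bool) =>
      Ideal.Quotient.mk m (fun p : Nat.Primes => f p (fun i => b i))) ?_
    intro b b' h
    by_contra hne
    obtain ⟨i, hi⟩ := Function.ne_iff.1 hne
    rw [Ideal.Quotient.eq] at h
    refine notMem_of_cofinite hmax.ne_top hle ?_ h
    have h1 : {p : Nat.Primes | ((fun p : Nat.Primes => f p (fun i => b i)) -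
        (fun p : Nat.Primes => f p (fun i => b' i)) : RR) p = 0} ⊆ {p : Nat.Primes | (p : ℕ) ≤ i} := by
      intro p hp
      by_contra hlt
      simp only [Set.mem_ofPred_eq, not_le, Pi.sub_apply, sub_eq_zero] at hp hlt
      exact hi (congrFun (hf p hp) ⟨i, hlt⟩)
    refine Set.Finite.subset ?_ h1
    have : ({k : ℕ | k ≤ i}).Finite := Set.finite_le_nat i
    exact this.preimage (Subtype.val_injective.injOn)

end field

/-- `ℂ` is a quotient of `∏ p, AlgebraicClosure (ZMod p)`. -/
theorem exists_surj_complex : ∃ π : RR →+* ℂ, Function.Surjective π := by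
  obtain ⟨m, hm, hle⟩ := Ideal.exists_le_maximal _ finSupp_ne_top
  let _ : Field (RR ⧸ m) := Ideal.Quotient.field m
  have _ : IsAlgClosed (RR ⧸ m) := isAlgClosed_quot m
  have _ : CharZero (RR ⧸ m) := charZero_quot m hle
  have hc : #(RR ⧸ m) = 𝔠 := card_quot m hle
  have hC : #ℂ = 𝔠 := Cardinal.mk_complex
  obtain ⟨e⟩ : Nonempty ((RR ⧸ m) ≃+* ℂ) := by
    apply IsAlgClosed.ringEquiv_of_equiv_of_charZero
    · rw [hc]; exact aleph0_lt_continuum
    · exact Cardinal.eq.1 (hc.trans hC.symm)
  exact ⟨(e : (RR ⧸ m) →+* ℂ).comp (Ideal.Quotient.mk m),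
    e.surjective.comp Ideal.Quotient.mk_surjective⟩

/-- Principle used throughout: if `z` is a finite family in the kernel of `π` and `x` vanishes at
every `p` at which all of the `z j` vanish, then `x` is in the kernel of `π`. -/
theorem map_eq_zero_of_forall {A : Type*} [CommRing A] (π : RR →+* A) {J : Type*} (s : Finset J)
    (z : J → RR) (hz : ∀ j ∈ s, π (z j) = 0) (x : RR)
    (hx : ∀ p, (∀ j ∈ s, z j p = 0) → x p = 0) : π x = 0 := by
  classical
  have hsum : ∃ y : J → RR, x = ∑ j ∈ s, y j * z j := by
    have h1 : ∀ p, ∃ y : J → Kp p, x p = ∑ j ∈ s, y j * z j p := by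
      intro p
      by_cases h : ∀ j ∈ s, z j p = 0
      · exact ⟨0, by simp [hx p h]⟩
      · push Not at h
        obtain ⟨j, hj, hj0⟩ := h
        refine ⟨fun k => if k = j then x p * (z j p)⁻¹ else 0, ?_⟩
        rw [Finset.sum_eq_single j]
        · simp [hj0]
        · intro b _ hb
          simp [hb]
        · intro h; exact absurd hj h
    choose y hy using h1
    refine ⟨fun j p => y p j, ?_⟩
    funext p
    rw [hy p, Finset.sum_apply]
    rfl
  obtain ⟨y, hy⟩ := hsum
  rw [hy, map_sum]
  apply Finset.sum_eq_zero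
  intro j hj
  rw [map_mul, hz j hj, mul_zero]

end Pool.Agent.MP_27fe6f_al
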