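import Pool.Agent.MP_27fe6f_al.Noeth
import Pool.Agent.MP_27fe6f_al.UltraField
import Pool.Agent.MP_27fe6f_al.Repr

/-!
Representations of a finitely generated group over `∏ p, AlgebraicClosure (ZMod p)` and their
extensions to the profinite completion.
-/

namespace Pool.Agent.MP_27fe6f_al

open Matrix

/-- The properties of the canonical map from a group to its profinite completion that we use. -/
structure IsProf {Γ P : Type*} [Group Γ] [Group P] [TopologicalSpace P] (i : Γ →* P) : Prop where
  dense : DenseRange i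
  ext : ∀ N : Subgroup Γ, ∀ _ : N.Normal, N.FiniteIndex →
    ∃ f : P →* Γ ⧸ N, IsLocallyConstant f ∧ ∀ g, f (i g) = QuotientGroup.mk g

theorem finite_range_of_fg {Γ : Type*} [Group Γ] [hfg : Group.FG Γ] (p : Nat.Primes)
    {ι : Type} [Fintype ι] [DecidableEq ι] (σ : Γ →* Matrix ι ι (Kp p)) :
    (Set.range σ).Finite := by
  classical
  obtain ⟨S, hS⟩ := Monoid.fg_def.1 (Group.fg_iff_monoid_fg.1 hfg)
  let E : Finset (Kp p) := S.biUnion fun s => Finset.univ.biUnion fun i =>
    Finset.univ.image fun j => σ s i j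
  let A0 := Algebra.adjoin (ZMod (p : ℕ)) (E : Set (Kp p))
  have hfin : Module.Finite (ZMod (p : ℕ)) A0 := by
    have : A0.toSubmodule.FG := fg_adjoin_of_finite E.finite_toSet (fun x _ =>
      Algebra.IsIntegral.isIntegral x)
    exact Module.Finite.iff_fg.2 this
  have hfin2 : Finite A0 := Module.finite_of_finite (ZMod (p : ℕ))
  have hmem : ∀ g, ∀ i j, σ g i j ∈ A0 := by
    intro g
    have hg : g ∈ Submonoid.closure (S : Set Γ) := by rw [hS]; trivial
    induction hg using Submonoid.closure_induction with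
    | mem x hx =>
      intro i j
      apply Algebra.subset_adjoin
      simp only [E, Finset.coe_biUnion, Set.mem_iUnion, Finset.coe_image]
      exact ⟨x, hx, i, Finset.mem_univ _, j, by simp, rfl⟩
    | one =>
      intro i j
      rw [map_one, Matrix.one_apply]
      split_ifs
      · exact A0.one_mem
      · exact A0.zero_mem
    | mul x y _ _ hx hy =>
      intro i j
      rw [map_mul, Matrix.mul_apply]
      exact A0.sum_mem fun k _ => A0.mul_mem (hx i k) (hy k j)
  have h1 : Set.range σ ⊆ Set.range (fun M : Matrix ι ι A0 => M.map A0.val) := by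
    rintro _ ⟨g, rfl⟩
    exact ⟨Matrix.of fun i j => ⟨σ g i j, hmem g i j⟩, by ext i j; rfl⟩
  exact (Set.finite_range _).subset h1

theorem exists_extension {Γ P : Type*} [Group Γ] [Group P] [TopologicalSpace P] {i : Γ →* P}
    (hi : IsProf i) [hfg : Group.FG Γ] (p : Nat.Primes)
    {ι : Type} [Fintype ι] [DecidableEq ι] (σ : Γ →* Matrix ι ι (Kp p)) :
    ∃ τ : P →* Matrix ι ι (Kp p), IsLocallyConstant τ ∧ ∀ g, τ (i g) = σ g := by
  have hfin := finite_range_of_fg p σ
  let N : Subgroup Γ := σ.toHomUnits.ker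
  have hN : N.FiniteIndex := by
    have h1 : Finite σ.toHomUnits.range := by
      have : Finite (Set.range σ) := hfin
      refine Finite.of_injective (β := Set.range σ)
        (fun x => ⟨((x : (Matrix ι ι (Kp p))ˣ) : Matrix ι ι (Kp p)), ?_⟩) ?_
      · obtain ⟨x, g, rfl⟩ := x
        exact ⟨g, rfl⟩
      · intro x y h
        simp only [Subtype.mk.injEq] at h
        exact Subtype.ext (Units.ext h)
    exact Subgroup.finiteIndex_ker _
  obtain ⟨f, hf, hf'⟩ := hi.ext N inferInstance hN
  refine ⟨(Units.coeHom _).comp ((QuotientGroup.kerLift σ.toHomUnits).comp f), ?_, ?_⟩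
  · exact hf.comp (fun x : Γ ⧸ N => ((QuotientGroup.kerLift σ.toHomUnits x :
      (Matrix ι ι (Kp p))ˣ) : Matrix ι ι (Kp p)))
  · intro g
    change ((QuotientGroup.kerLift σ.toHomUnits (f (i g)) :
      (Matrix ι ι (Kp p))ˣ) : Matrix ι ι (Kp p)) = σ g
    rw [hf' g]
    rfl

/-- Families of functions all of whose components are locally constant. -/
def locConst (P : Type*) [TopologicalSpace P] : Subring (P → RR) where
  carrier := {F | ∀ p, IsLocallyConstant fun x => F x p}
  mul_mem' hF hG p := (hF p).mul (hG p)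
  one_mem' _ := IsLocallyConstant.const _
  add_mem' hF hG p := (hF p).add (hG p)
  zero_mem' _ := IsLocallyConstant.const _
  neg_mem' hF p := (hF p).neg

theorem exists_presentation {Γ : Type*} [Group Γ] [hfg : Group.FG Γ] :
    ∃ (n : ℕ) (φ : FreeMonoid (Fin n) →* Γ), Function.Surjective φ := by
  obtain ⟨α, hα, φ, hφ⟩ := Monoid.fg_iff_exists_freeGroup_hom_surjective_finite.1
    (Group.fg_iff_monoid_fg.1 hfg)
  obtain ⟨n, ⟨e⟩⟩ := Finite.exists_equiv_fin α
  exact ⟨n, φ.comp (FreeMonoid.freeMonoidCongr e.symm).toMonoidHom,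
    hφ.comp (FreeMonoid.freeMonoidCongr e.symm).surjective⟩

/-- A matrix coefficient on `P` that vanishes on `Γ` vanishes identically, even after applying
`π`. -/
theorem vanish_of_vanish {Γ P : Type*} [Group Γ] [Group P] [TopologicalSpace P] {i : Γ →* P}
    (hi : IsProf i) [hfg : Group.FG Γ] (π : RR →+* ℂ) {F : P → RR} (hF : F ∈ reprAlg (locConst P))
    (h0 : ∀ g, π (F (i g)) = 0) (x : P) : π (F x) = 0 := by
  obtain ⟨ι, _, _, ρ, a, b, hρ, hFρ⟩ := hF
  obtain ⟨n, φ, hφ⟩ := exists_presentation (Γ := Γ)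
  obtain ⟨s, hs⟩ := exists_finset_coeff n ι
  refine map_eq_zero_of_forall π s (fun w => F (i (φ w))) (fun w _ => h0 _) (F x) ?_
  intro p hp
  -- the representation over `Kp p`
  let ρp : P →* Matrix ι ι (Kp p) :=
    ((Pi.evalRingHom (fun p => Kp p) p).mapMatrix : Matrix ι ι RR →+* _).toMonoidHom.comp ρ
  have hFp : ∀ y, F y p = (fun i => a i p) ⬝ᵥ (ρp y *ᵥ (fun i => b i p)) := by
    intro y
    rw [hFρ]
    simp [dotProduct, mulVec, ρp]
  have hword : ∀ w, word (fun k => ρp (i (φ (FreeMonoid.of k)))) w = ρp (i (φ w)) := by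
    intro w
    have h : word (fun k => ρp (i (φ (FreeMonoid.of k)))) = (ρp.comp i).comp φ := by
      apply FreeMonoid.hom_eq
      intro x
      simp [word]
    exact DFunLike.congr_fun h w
  have h1 : ∀ w, F (i (φ w)) p = 0 := by
    intro w
    rw [hFp, ← hword]
    apply hs
    intro w hw
    rw [hword, ← hFp]
    exact hp w hw
  have hloc : IsLocallyConstant fun y => F y p := by
    have h2 : IsLocallyConstant ρp := by
      have h3 : IsLocallyConstant fun y => fun i j => ρp y i j := by
        have h4 : ∀ i j, IsLocallyConstant fun y => ρp y i j := fun i j => hρ i j p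
        rw [IsLocallyConstant.iff_eventually_eq]
        intro x
        have h5 : ∀ i j, ∀ᶠ y in nhds x, ρp y i j = ρp x i j := fun i j =>
          (IsLocallyConstant.iff_eventually_eq _).1 (h4 i j) x
        have h6 : ∀ᶠ y in nhds x, ∀ i j, ρp y i j = ρp x i j := by
          rw [Filter.eventually_all]
          intro i
          rw [Filter.eventually_all]
          exact h5 i
        filter_upwards [h6] with y hy
        funext i j
        exact hy i j
      exact h3
    have h7 := h2.comp (fun M => (fun i => a i p) ⬝ᵥ (M *ᵥ (fun i => b i p)))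
    have h8 : (fun y => F y p) = (fun M => (fun i => a i p) ⬝ᵥ (M *ᵥ (fun i => b i p))) ∘ ρp := by
      funext y
      exact hFp y
    rw [h8]
    exact h7
  obtain ⟨U, hU, hxU, hUc⟩ := (IsLocallyConstant.iff_exists_open _).1 hloc x
  obtain ⟨g, hg⟩ := hi.dense.exists_mem_open hU ⟨x, hxU⟩
  obtain ⟨w, rfl⟩ := hφ g
  rw [← hUc _ hg]
  exact h1 w

/-- Every complex matrix coefficient of `Γ` extends to `P`. -/
theorem exists_lift {Γ P : Type*} [Group Γ] [Group P] [TopologicalSpace P] {i : Γ →* P}
    (hi : IsProf i) [hfg : Group.FG Γ] (π : RR →+* ℂ) (hπ : Function.Surjective π)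
    {f : Γ → ℂ} (hf : IsRepr ⊤ f) :
    ∃ F ∈ reprAlg (locConst P), ∀ g, π (F (i g)) = f g := by
  classical
  obtain ⟨ι, _, _, σ, a, b, -, hfσ⟩ := hf
  obtain ⟨n, φ, hφ⟩ := exists_presentation (Γ := Γ)
  obtain ⟨s, hs⟩ := exists_finset_rel (ι := ι) φ
  -- lift the matrices of the generators
  choose r hr using hπ
  let M : Fin n → Matrix ι ι RR := fun k => (σ (φ (FreeMonoid.of k))).map r
  have hM : ∀ w, (word M w).map π = σ (φ w) := by
    intro w
    rw [map_word]
    have h : word (fun k => (M k).map π) = σ.comp φ := by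
      apply FreeMonoid.hom_eq
      intro x
      ext i j
      simp [word, M, hr]
    exact DFunLike.congr_fun h w
  let Mp : ∀ p, Fin n → Matrix ι ι (Kp p) := fun p k =>
    (M k).map (Pi.evalRingHom (fun p => Kp p) p)
  have hMp : ∀ p w i j, word (Mp p) w i j = word M w i j p := by
    intro p w i j
    have := map_word (Pi.evalRingHom (fun p => Kp p) p) M w
    rw [← this]
    rfl
  let good : Nat.Primes → Prop := fun p =>
    ∀ j ∈ s, word (Mp p) j.1.1.1 j.2.1 j.2.2 - word (Mp p) j.1.1.2 j.2.1 j.2.2 = 0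
  have hgood : ∀ p, good p → ∃ τ : P →* Matrix ι ι (Kp p), IsLocallyConstant τ ∧
      ∀ w, τ (i (φ w)) = word (Mp p) w := by
    intro p hp
    have hrel := hs (Kp p) (Mp p) hp
    let g : Γ → FreeMonoid (Fin n) := fun x => (hφ x).choose
    have hg : ∀ x, φ (g x) = x := fun x => (hφ x).choose_spec
    let σp : Γ →* Matrix ι ι (Kp p) :=
      { toFun := fun x => word (Mp p) (g x)
        map_one' := by
          rw [hrel (g 1) 1 (by rw [hg, map_one]), map_one]
        map_mul' := fun x y => by
          rw [← map_mul]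
          exact hrel _ _ (by rw [hg, map_mul, hg, hg]) }
    obtain ⟨τ, hτ, hτ'⟩ := exists_extension hi p σp
    refine ⟨τ, hτ, fun w => ?_⟩
    rw [hτ']
    exact hrel _ _ (hg _)
  have hall : ∀ p, ∃ τ : P →* Matrix ι ι (Kp p), IsLocallyConstant τ ∧
      (good p → ∀ w, τ (i (φ w)) = word (Mp p) w) := by
    intro p
    by_cases hp : good p
    · obtain ⟨τ, h1, h2⟩ := hgood p hp
      exact ⟨τ, h1, fun _ => h2⟩
    · exact ⟨1, IsLocallyConstant.const 1, fun h => absurd h hp⟩
  choose τ hτ1 hτ2 using hall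
  let ρ : P →* Matrix ι ι RR :=
    { toFun := fun x => Matrix.of fun i j => fun p => τ p x i j
      map_one' := by
        ext i j p
        simp only [map_one, Matrix.of_apply, Matrix.one_apply]
        split_ifs <;> rfl
      map_mul' := fun x y => by
        ext i j p
        simp [Matrix.mul_apply] }
  have hρ : ∀ (w) (i' j' : ι), π (ρ (i (φ w)) i' j') = σ (φ w) i' j' := by
    intro w i' j'
    have h1 : π (ρ (i (φ w)) i' j' - word M w i' j') = 0 := by
      refine map_eq_zero_of_forall π s
        (fun j => word M j.1.1.1 j.2.1 j.2.2 - word M j.1.1.2 j.2.1 j.2.2) ?_ _ ?_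
      · intro j _
        have e1 := congrFun (congrFun (hM j.1.1.1) j.2.1) j.2.2
        have e2 := congrFun (congrFun (hM j.1.1.2) j.2.1) j.2.2
        simp only [Matrix.map_apply] at e1 e2
        rw [map_sub, e1, e2, j.1.2, sub_self]
      · intro p hp
        have hgp : good p := by
          intro j hj
          have := hp j hj
          rw [hMp, hMp]
          exact this
        have := hτ2 p hgp w
        change τ p (i (φ w)) i' j' - word M w i' j' p = 0
        rw [this, hMp, sub_self]
    rw [map_sub, sub_eq_zero] at h1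
    rw [h1, ← hM]
    rfl
  refine ⟨fun x => (fun i => r (a i)) ⬝ᵥ (ρ x *ᵥ fun i => r (b i)),
    ⟨ι, inferInstance, inferInstance, ρ, _, _, ?_, fun _ => rfl⟩, ?_⟩
  · intro i' j' p
    exact (hτ1 p).comp (fun M => M i' j')
  · intro g
    obtain ⟨w, rfl⟩ := hφ g
    simp only [dotProduct, mulVec, map_sum, map_mul, hr, hρ, hfσ]

end Pool.Agent.MP_27fe6f_al
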